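import Pool.Agent.H89.TC.Nm

/-! Descent of local conditions of two-coverings through an extension of odd degree. -/

set_option autoImplicit false

open Polynomial Module

namespace Pool.Agent.H89.TC

/-- the product of the signed first components -/
noncomputable def sp {F : Type} [Field F] (l : List (F[X] × F[X])) : F[X] :=
  (l.map fun p => (-1) ^ p.1.natDegree * p.1).prod

/-- the conditions on the list -/
def Ok {F : Type} [Field F] (f : F[X]) (l : List (F[X] × F[X])) : Prop :=
  ∀ p ∈ l, p.1.Monic ∧ IsCoprime p.1 f ∧ p.1 ∣ p.2 ^ 2 - f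

variable {K E : Type} [Field K] [Field E] [Algebra K E] [FiniteDimensional K E]

/-- the norm of `x - t` for a root `x` -/
theorem norm_root_sub (ρ : E[X]) (hm : ρ.Monic) (t : E) :
    Algebra.norm E (AdjoinRoot.root ρ - algebraMap E (AdjoinRoot ρ) t) =
      (-1) ^ ρ.natDegree * ρ.eval t := by
  let pb := AdjoinRoot.powerBasis' hm
  have h0 : minpoly E pb.gen = ρ := by
    have h1 : pb.gen = AdjoinRoot.root ρ := AdjoinRoot.powerBasis'_gen hm
    rw [h1, AdjoinRoot.minpoly_root hm.ne_zero, hm.leadingCoeff, inv_one, map_one, mul_one]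
  have h3 : AdjoinRoot.root ρ - algebraMap E (AdjoinRoot ρ) t =
      algebraMap E (AdjoinRoot ρ) (-1) * (algebraMap E (AdjoinRoot ρ) t - pb.gen) := by
    have h1 : pb.gen = AdjoinRoot.root ρ := AdjoinRoot.powerBasis'_gen hm
    rw [h1, map_neg, map_one]; ring
  have : Module.Free E (AdjoinRoot ρ) := Module.Free.of_basis pb.basis
  rw [h3, map_mul, Algebra.norm_algebraMap_of_basis pb.basis, norm_sub_gen, h0]
  congr 2
  simp [pb]

theorem nm_irred [Infinite K] (ρ : E[X]) (hm : ρ.Monic) (hi : Irreducible ρ) (f : K[X]) (v : E[X])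
    (hc : IsCoprime ρ (f.map (algebraMap K E))) (hv : ρ ∣ v ^ 2 - f.map (algebraMap K E)) :
    ∃ (l : List (K[X] × K[X])) (a : K[X]), Ok f l ∧ IsCoprime a f ∧
      nm K ((-1) ^ ρ.natDegree * ρ) = a ^ 2 * sp l := by
  have : Fact (Irreducible ρ) := ⟨hi⟩
  have : FiniteDimensional E (AdjoinRoot ρ) := (AdjoinRoot.powerBasis hi.ne_zero).finite
  have : FiniteDimensional K (AdjoinRoot ρ) := FiniteDimensional.trans K E (AdjoinRoot ρ)
  set x : AdjoinRoot ρ := AdjoinRoot.root ρ with hx
  have hxi : IsIntegral K x := Algebra.IsIntegral.isIntegral x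
  set R : K[X] := minpoly K x with hR
  set L : IntermediateField K (AdjoinRoot ρ) := IntermediateField.adjoin K {x} with hL
  set z : L := IntermediateField.AdjoinSimple.gen K x with hz
  let pb : PowerBasis K L := IntermediateField.adjoin.powerBasis hxi
  have hgen : pb.gen = z := IntermediateField.adjoin.powerBasis_gen hxi
  have hRz : minpoly K z = R := IntermediateField.minpoly_gen K x
  have hzx : algebraMap L (AdjoinRoot ρ) z = x := rfl
  set e : ℕ := finrank L (AdjoinRoot ρ) with he
  have hmp : R.Monic := minpoly.monic hxi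
  have hRi : Irreducible R := minpoly.irreducible hxi
  have hdR : finrank K L = R.natDegree := by
    rw [pb.finrank, ← pb.natDegree_minpoly, hgen, hRz]
  -- the norm
  have hnm : nm K ((-1) ^ ρ.natDegree * ρ) = ((-1) ^ R.natDegree * R) ^ e := by
    apply Polynomial.funext
    intro t
    rw [nm_eval]
    have h1 : ((-1) ^ ρ.natDegree * ρ).eval (algebraMap K E t) =
        Algebra.norm E (x - algebraMap E (AdjoinRoot ρ) (algebraMap K E t)) := by
      rw [norm_root_sub ρ hm, eval_mul, eval_pow, eval_neg, eval_one]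
    rw [h1, Algebra.norm_norm, ← IsScalarTower.algebraMap_apply K E (AdjoinRoot ρ)]
    have h2 : x - algebraMap K (AdjoinRoot ρ) t = algebraMap L (AdjoinRoot ρ)
        (z - algebraMap K L t) := by
      rw [map_sub, hzx]
      rfl
    rw [h2, ← Algebra.norm_norm (R := K) (S := L) (A := AdjoinRoot ρ), Algebra.norm_algebraMap,
      map_pow, eval_pow]
    congr 1
    have h3 : z - algebraMap K L t = algebraMap K L (-1) * (algebraMap K L t - pb.gen) := by
      rw [hgen, map_neg, map_one]; ring
    rw [h3, map_mul, norm_sub_gen, Algebra.norm_algebraMap, hgen, hRz, hdR, eval_mul, eval_pow,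
      eval_neg, eval_one]
  -- coprimality
  have hcop : IsCoprime R f := by
    rw [hRi.coprime_iff_not_dvd]
    intro hdvd
    have h1 : aeval x f = 0 := (minpoly.dvd_iff).1 hdvd
    have h2 : ρ ∣ f.map (algebraMap K E) := by
      rw [← AdjoinRoot.mk_eq_zero, ← AdjoinRoot.aeval_eq, aeval_map_algebraMap]
      exact h1
    exact hi.not_isUnit (hc.isUnit_of_dvd' dvd_rfl h2)
  have hcop' : ∀ c : ℕ, IsCoprime (((-1) ^ R.natDegree * R) ^ c) f := by
    intro c
    refine IsCoprime.pow_left (IsCoprime.mul_left ?_ hcop)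
    exact (isCoprime_one_left.neg_left).pow_left
  rcases Nat.even_or_odd e with ⟨c, hcc⟩ | ⟨c, hcc⟩
  · refine ⟨[], ((-1) ^ R.natDegree * R) ^ c, ?_, hcop' c, ?_⟩
    · intro p hp
      simp at hp
    · rw [hnm, hcc, ← pow_mul]
      simp only [sp, List.map_nil, List.prod_nil, mul_one]
      congr 1
      omega
  · -- the square root
    have hfz : aeval z f ≠ 0 := by
      intro h0
      have h1 : R ∣ f := by
        rw [← hRz]
        exact minpoly.dvd K z h0
      exact (hRi.coprime_iff_not_dvd.1 hcop) h1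
    have hv1 : (aeval x v) ^ 2 = aeval x f := by
      have h2 : aeval x (v ^ 2 - f.map (algebraMap K E)) = 0 := by
        rw [hx, AdjoinRoot.aeval_eq, AdjoinRoot.mk_eq_zero]
        exact hv
      rw [map_sub, map_pow, aeval_map_algebraMap, sub_eq_zero] at h2
      exact h2
    have hy : (Algebra.norm L (aeval x v)) ^ 2 = (aeval z f) ^ e := by
      rw [← map_pow, hv1]
      have h3 : aeval x f = algebraMap L (AdjoinRoot ρ) (aeval z f) := by
        rw [← aeval_algebraMap_apply, hzx]
      rw [h3, Algebra.norm_algebraMap]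
    obtain ⟨w, hw⟩ := pb.exists_eq_aeval' (Algebra.norm L (aeval x v) / (aeval z f) ^ c)
    rw [hgen] at hw
    refine ⟨[(R, w)], ((-1) ^ R.natDegree * R) ^ c, ?_, hcop' c, ?_⟩
    · intro p hp
      rw [List.mem_singleton] at hp
      subst hp
      refine ⟨hmp, hcop, ?_⟩
      change R ∣ w ^ 2 - f
      rw [← hRz, minpoly.dvd_iff, map_sub, map_pow, ← hw, div_pow, hy, hcc, sub_eq_zero, ← pow_mul,
        div_eq_iff (pow_ne_zero _ hfz), ← pow_succ']
      congr 1
      ring
    · rw [hnm, hcc]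
      simp only [sp, List.map_cons, List.map_nil, List.prod_cons, List.prod_nil, mul_one]
      ring

theorem Ok.append {F : Type} [Field F] {f : F[X]} {l l' : List (F[X] × F[X])} (h : Ok f l)
    (h' : Ok f l') : Ok f (l ++ l') := by
  intro p hp
  rcases List.mem_append.1 hp with h1 | h1
  · exact h p h1
  · exact h' p h1

theorem sp_append {F : Type} [Field F] (l l' : List (F[X] × F[X])) :
    sp (l ++ l') = sp l * sp l' := by
  simp [sp]

theorem nm_one_poly [Infinite K] (f : K[X]) (v : E[X]) : ∀ (n : ℕ) (p : E[X]), p.natDegree ≤ n →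
    p.Monic → IsCoprime p (f.map (algebraMap K E)) → p ∣ v ^ 2 - f.map (algebraMap K E) →
    ∃ (l : List (K[X] × K[X])) (a : K[X]), Ok f l ∧ IsCoprime a f ∧
      nm K ((-1) ^ p.natDegree * p) = a ^ 2 * sp l := by
  intro n
  induction n with
  | zero =>
    intro p hp hm _ _
    have h1 : p = 1 := hm.natDegree_eq_zero.1 (Nat.le_zero.1 hp)
    refine ⟨[], 1, fun _ h => by simp at h, isCoprime_one_left, ?_⟩
    rw [h1]
    simp [sp, nm_one]
  | succ n ih =>
    intro p hp hm hc hv
    by_cases hu : IsUnit p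
    · exact ih p (by rw [hm.eq_one_of_isUnit hu]; simp) hm hc hv
    · obtain ⟨ρ, hρm, hρi, q, hq⟩ := Polynomial.exists_monic_irreducible_factor p hu
      have hqm : q.Monic := hρm.of_mul_monic_left (hq ▸ hm)
      have hd : p.natDegree = ρ.natDegree + q.natDegree := by rw [hq, hρm.natDegree_mul hqm]
      have hρd : 0 < ρ.natDegree := hρi.natDegree_pos
      have hρp : ρ ∣ p := ⟨q, hq⟩
      have hqp : q ∣ p := ⟨ρ, by rw [hq, mul_comm]⟩
      obtain ⟨l, a, hl, ha, hla⟩ := nm_irred ρ hρm hρi f v (hc.of_isCoprime_of_dvd_left hρp)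
        (hρp.trans hv)
      obtain ⟨l', a', hl', ha', hla'⟩ := ih q (by omega) hqm (hc.of_isCoprime_of_dvd_left hqp)
        (hqp.trans hv)
      refine ⟨l ++ l', a * a', hl.append hl', ha.mul_left ha', ?_⟩
      have h1 : (-1) ^ p.natDegree * p = ((-1) ^ ρ.natDegree * ρ) * ((-1) ^ q.natDegree * q) := by
        rw [hd, hq, pow_add]; ring
      rw [h1, nm_mul, hla, hla', sp_append]
      ring

theorem nm_list [Infinite K] (f : K[X]) : ∀ l : List (E[X] × E[X]),
    Ok (f.map (algebraMap K E)) l →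
    ∃ (l' : List (K[X] × K[X])) (a : K[X]), Ok f l' ∧ IsCoprime a f ∧
      nm K (sp l) = a ^ 2 * sp l' := by
  intro l
  induction l with
  | nil =>
    intro _
    refine ⟨[], 1, fun _ h => by simp at h, isCoprime_one_left, ?_⟩
    simp [sp, nm_one]
  | cons p l ih =>
    intro h
    obtain ⟨l', a, hl', ha, hla⟩ := ih fun q hq => h q (List.mem_cons_of_mem _ hq)
    obtain ⟨h1, h2, h3⟩ := h p List.mem_cons_self
    obtain ⟨l'', a', hl'', ha', hla'⟩ := nm_one_poly f p.2 _ p.1 le_rfl h1 h2 h3
    refine ⟨l'' ++ l', a' * a, hl''.append hl', ha'.mul_left ha, ?_⟩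
    have h4 : sp (p :: l) = ((-1) ^ p.1.natDegree * p.1) * sp l := by simp [sp]
    rw [h4, nm_mul, hla, hla', sp_append]
    ring

/-- descent through an extension of odd degree -/
theorem locIm_odd [Infinite K] (hodd : Odd (finrank K E)) (f h : K[X]) (hh : IsCoprime h f)
    (H : ∃ (l : List (E[X] × E[X])) (s : E[X]), Ok (f.map (algebraMap K E)) l ∧
      f.map (algebraMap K E) ∣ h.map (algebraMap K E) * sp l - s ^ 2) :
    ∃ (l : List (K[X] × K[X])) (s : K[X]), Ok f l ∧ f ∣ h * sp l - s ^ 2 := by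
  obtain ⟨l, s, hl, hs⟩ := H
  obtain ⟨l', a, hl', ha, hla⟩ := nm_list f l hl
  obtain ⟨j, hj⟩ := hodd
  have h1 := nm_congr f hs
  rw [nm_mul, nm_map, hla, nm_pow, hj] at h1
  have h2 : IsCoprime (h ^ j * a) f := (hh.pow_left).mul_left ha
  obtain ⟨u, w, huw⟩ := h2
  refine ⟨l', u * nm K s, hl', ?_⟩
  obtain ⟨c, hc⟩ := h1
  have h3 : (u * (h ^ j * a)) ^ 2 = 1 - f * (w * (2 - w * f)) := by
    have : u * (h ^ j * a) = 1 - w * f := by linear_combination huw
    rw [this]; ring
  refine ⟨u ^ 2 * c + h * sp l' * (w * (2 - w * f)), ?_⟩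
  linear_combination u ^ 2 * hc + h * sp l' * h3.symm
end Pool.Agent.H89.TC
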