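import Pool.Agent.H89.TC.Plane
import Pool.Agent.H89.TC.Desc
import Pool.Graph.R_pool_sql_team_seeded_63374d34.N844.PL.Bc

/-! The two-coverings as curves in projective space. -/

set_option autoImplicit false
set_option linter.all false

open Matrix Polynomial

namespace Pool.Agent.H89.TC

open Pool.Agent.N844.QR (Sr bs bs_apply tau tau_pow tau_top gA gB cm det_g hom po_eval es)
open Pool.Agent.N844.PL

section cov

variable {K : Type} [Field K]

/-- the polynomial `y_0 + y_1 x + … + y_(2 g) x ^ (2 g)` -/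
noncomputable def lam (g : ℕ) (y : Fin (2 * g + 2) → K) : K[X] :=
  ∑ i : Fin (2 * g + 1), C (y i.castSucc) * X ^ (i : ℕ)

/-- the symmetric bilinear forms of the curve -/
noncomputable def bil (g : ℕ) (f h : K[X]) (j : ℕ) (y z : Fin (2 * g + 2) → K) : K :=
  ((h * lam g y * lam g z) %ₘ f).coeff (j + 1) +
    if j = 0 then y (Fin.last _) * z (Fin.last _) else 0

/-- the points of the curve `D_h` -/
def IsPoint (g : ℕ) (f h : K[X]) (y : Fin (2 * g + 2) → K) : Prop :=
  y ≠ 0 ∧ ∀ j < 2 * g, bil g f h j y y = 0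

/-- the Jacobian criterion -/
def SmoothAt (g : ℕ) (f h : K[X]) (y : Fin (2 * g + 2) → K) : Prop :=
  LinearIndependent K fun (j : Fin (2 * g)) (z : Fin (2 * g + 2) → K) => bil g f h j y z

/-- the variety `W_h` has a point -/
def HasSpace (g : ℕ) (f h : K[X]) : Prop :=
  ∃ W : Submodule K (Fin (2 * g + 2) → K), Module.finrank K W = g ∧ ∀ y ∈ W,
    ((h * lam g y ^ 2) %ₘ f).coeff (2 * g) = 0 ∧
    ((h * X * lam g y ^ 2) %ₘ f).coeff (2 * g) + y (Fin.last _) ^ 2 = 0

lemma lam_coeff (g : ℕ) (y : Fin (2 * g + 2) → K) (i : Fin (2 * g + 1)) :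
    (lam g y).coeff i = y i.castSucc := by
  unfold lam
  rw [finsetSum_coeff, Finset.sum_eq_single i]
  · rw [coeff_C_mul, coeff_X_pow, if_pos rfl, mul_one]
  · intro j _ hj
    rw [coeff_C_mul, coeff_X_pow, if_neg, mul_zero]
    exact fun e => hj (Fin.ext e.symm)
  · intro h; exact absurd (Finset.mem_univ i) h

lemma lam_natDegree (g : ℕ) (y : Fin (2 * g + 2) → K) : (lam g y).natDegree < 2 * g + 1 := by
  have : (lam g y).degree < (2 * g + 1 : ℕ) := by
    refine (degree_sum_le _ _).trans_lt ?_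
    rw [Finset.sup_lt_iff (by exact_mod_cast WithBot.bot_lt_coe (2 * g + 1))]
    intro j _
    refine (degree_C_mul_X_pow_le _ _).trans_lt ?_
    exact_mod_cast j.2
  by_cases hp0 : lam g y = 0
  · rw [hp0]; simp
  · exact (natDegree_lt_iff_degree_lt hp0).2 this

lemma lam_surj (g : ℕ) (p : K[X]) (hp : p.natDegree < 2 * g + 1) (a : K) :
    ∃ y : Fin (2 * g + 2) → K, lam g y = p ∧ y (Fin.last _) = a := by
  refine ⟨Fin.snoc (fun i : Fin (2 * g + 1) => p.coeff i) a, ?_, by simp⟩
  unfold lam
  simp only [Fin.snoc_castSucc]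
  rw [Fin.sum_univ_eq_sum_range (fun i => C (p.coeff i) * X ^ i) (2 * g + 1)]
  exact (as_sum_range_C_mul_X_pow' p hp).symm

lemma eq_zero_of_lam (g : ℕ) (y : Fin (2 * g + 2) → K) (h1 : lam g y = 0)
    (h2 : y (Fin.last _) = 0) : y = 0 := by
  funext i
  refine Fin.lastCases h2 (fun j => ?_) i
  rw [← lam_coeff g y j, h1, coeff_zero]
  rfl

/-- the points in terms of polynomials -/
lemma isPoint_iff {g : ℕ} (hg : 1 ≤ g) {f h : K[X]} (hf : f.Monic)
    (hd : f.natDegree = 2 * g + 1) (y : Fin (2 * g + 2) → K) : IsPoint g f h y ↔ y ≠ 0 ∧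
      ∃ b : K, f ∣ h * lam g y ^ 2 - (C b - C (y (Fin.last _) ^ 2) * X) := by
  have hf1 : f ≠ 1 := by
    rintro rfl
    simp at hd
  unfold IsPoint
  refine and_congr_right fun _ => ?_
  set P : K[X] := (h * lam g y ^ 2) %ₘ f with hP
  have hPd : P.natDegree < 2 * g + 1 := hd ▸ natDegree_modByMonic_lt _ hf hf1
  have hdv : f ∣ h * lam g y ^ 2 - P := by
    rw [hP]
    exact ⟨(h * lam g y ^ 2) /ₘ f, by linear_combination -(modByMonic_add_div (h * lam g y ^ 2) f)⟩
  have e1 : ∀ j, bil g f h j y y = P.coeff (j + 1) + if j = 0 then y (Fin.last _) ^ 2 else 0 := by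
    intro j
    unfold bil
    rw [mul_assoc, ← pow_two, ← pow_two]
  constructor
  · intro hj
    refine ⟨P.coeff 0, ?_⟩
    have e2 : P = C (P.coeff 0) - C (y (Fin.last _) ^ 2) * X := by
      ext n
      rcases n with _ | _ | n
      · simp
      · have h1 := hj 0 (by omega)
        rw [e1, if_pos rfl] at h1
        simp only [coeff_sub, coeff_C_mul, coeff_X_one, zero_add, mul_one]
        rw [coeff_C, if_neg one_ne_zero]
        linear_combination h1
      · rw [coeff_sub, coeff_C_mul, coeff_X, if_neg (by omega), coeff_C, if_neg (by omega)]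
        rw [mul_zero, sub_zero]
        by_cases hn : n + 1 < 2 * g
        · have h1 := hj (n + 1) hn
          rw [e1, if_neg (by omega), add_zero] at h1
          exact h1
        · exact coeff_eq_zero_of_natDegree_lt (by omega)
    rw [← e2]
    exact hdv
  · rintro ⟨b, hb⟩ j hj
    have e2 : P = C b - C (y (Fin.last _) ^ 2) * X := by
      have h1 : f ∣ P - (C b - C (y (Fin.last _) ^ 2) * X) := by
        have := dvd_sub hb hdv
        have e : h * lam g y ^ 2 - (C b - C (y (Fin.last _) ^ 2) * X) - (h * lam g y ^ 2 - P) =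
            P - (C b - C (y (Fin.last _) ^ 2) * X) := by ring
        rwa [e] at this
      by_contra hne
      have h2 := natDegree_le_of_dvd h1 (sub_ne_zero.2 hne)
      have h3 : (C b - C (y (Fin.last _) ^ 2) * X).natDegree ≤ 1 := by
        refine (natDegree_sub_le _ _).trans (max_le (by simp) ?_)
        exact (natDegree_C_mul_le _ _).trans natDegree_X_le
      have h4 := (natDegree_sub_le P (C b - C (y (Fin.last _) ^ 2) * X))
      have h5 : max P.natDegree (C b - C (y (Fin.last _) ^ 2) * X).natDegree < 2 * g + 1 := by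
        rw [max_lt_iff]
        omega
      omega
    rw [e1, e2]
    rcases j with _ | j
    · rw [if_pos rfl, coeff_sub, coeff_C_mul, coeff_X, if_pos rfl, coeff_C, if_neg (by omega)]
      ring
    · rw [if_neg (by omega), add_zero, coeff_sub, coeff_C_mul, coeff_X, if_neg (by omega), coeff_C,
        if_neg (by omega)]
      simp

/-- the tangent functional -/
lemma smoothAt {g : ℕ} (hg : 1 ≤ g) {f h : K[X]} (hf : f.Monic) (hd : f.natDegree = 2 * g + 1)
    (hsf : Squarefree f) (hh : IsCoprime h f) (y : Fin (2 * g + 2) → K) (hy : IsPoint g f h y) :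
    SmoothAt g f h y := by
  obtain ⟨hy0, b, hb⟩ := (isPoint_iff hg hf hd y).1 hy
  set a : K := y (Fin.last _) with ha
  set l : K[X] := lam g y with hl
  unfold SmoothAt
  rw [Fintype.linearIndependent_iff]
  intro t ht
  let φ : K[X] → K := fun p => ∑ j : Fin (2 * g), t j * (p %ₘ f).coeff ((j : ℕ) + 1)
  have hadd : ∀ p q, φ (p + q) = φ p + φ q := by
    intro p q
    simp only [φ]
    rw [← Finset.sum_add_distrib]
    refine Finset.sum_congr rfl fun j _ => ?_
    rw [add_modByMonic, coeff_add, mul_add]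
  have hC : ∀ (c : K) (p : K[X]), φ (C c * p) = c * φ p := by
    intro c p
    simp only [φ]
    rw [Finset.mul_sum]
    refine Finset.sum_congr rfl fun j _ => ?_
    rw [C_mul', smul_modByMonic, coeff_smul, smul_eq_mul]
    ring
  have hdvd : ∀ p, f ∣ p → φ p = 0 := by
    intro p hp
    simp only [φ]
    refine Finset.sum_eq_zero fun j _ => ?_
    rw [(modByMonic_eq_zero_iff_dvd hf).2 hp, coeff_zero, mul_zero]
  have hcongr : ∀ p q, f ∣ p - q → φ p = φ q := by
    intro p q hpq
    have h1 := hadd q (p - q)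
    rw [hdvd _ hpq, add_zero, add_sub_cancel] at h1
    exact h1
  have key : ∀ z : Fin (2 * g + 2) → K,
      φ (h * l * lam g z) + t ⟨0, by omega⟩ * (a * z (Fin.last _)) = 0 := by
    intro z
    have h1 := congrFun ht z
    simp only [Finset.sum_apply, Pi.smul_apply, smul_eq_mul, Pi.zero_apply, bil] at h1
    rw [← h1]
    simp only [mul_add, Finset.sum_add_distrib]
    congr 1
    rw [Finset.sum_eq_single (⟨0, by omega⟩ : Fin (2 * g))]
    · rw [if_pos rfl]
    · intro j _ hj
      rw [if_neg, mul_zero]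
      exact fun e => hj (Fin.ext e)
    · intro h; exact absurd (Finset.mem_univ _) h
  have hta : t ⟨0, by omega⟩ * a = 0 := by
    obtain ⟨z, hz, hz'⟩ := lam_surj g (0 : K[X]) (by simp) 1
    have h1 := key z
    rw [hz, hz', mul_zero, hdvd 0 (dvd_zero _), zero_add, mul_one] at h1
    exact h1
  have hf1 : f ≠ 1 := by
    rintro rfl
    simp at hd
  have hφ : ∀ q, φ (h * l * q) = 0 := by
    intro q
    obtain ⟨z, hz, hz'⟩ := lam_surj g (q %ₘ f) (hd ▸ natDegree_modByMonic_lt _ hf hf1) 0
    have h1 := key z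
    rw [hz, hz', mul_zero, mul_zero, add_zero] at h1
    rw [← h1]
    apply hcongr
    rw [← mul_sub]
    exact Dvd.dvd.mul_left ⟨q /ₘ f, by linear_combination -(modByMonic_add_div q f)⟩ _
  have hrec : ∀ i : ℕ, b * φ (X ^ i) = a ^ 2 * φ (X ^ (i + 1)) := by
    intro i
    have h1 : φ ((C b - C (a ^ 2) * X) * X ^ i) = 0 := by
      rw [← hφ (l * X ^ i)]
      apply hcongr
      have e : (C b - C (a ^ 2) * X) * X ^ i - h * l * (l * X ^ i) =
          -((h * l ^ 2 - (C b - C (a ^ 2) * X)) * X ^ i) := by ring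
      rw [e]
      exact (hb.mul_right _).neg_right
    have e : (C b - C (a ^ 2) * X) * X ^ i = C b * X ^ i + C (-a ^ 2) * X ^ (i + 1) := by
      rw [map_neg]
      simp only [map_pow]
      ring
    rw [e, hadd, hC, hC] at h1
    linear_combination h1
  have hone : φ 1 = 0 := by
    simp only [φ]
    refine Finset.sum_eq_zero fun j _ => ?_
    rw [(modByMonic_eq_self_iff hf).2, coeff_one, if_neg (by omega), mul_zero]
    rw [degree_one, degree_eq_natDegree hf.ne_zero, hd]
    exact_mod_cast (by omega : 0 < 2 * g + 1)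
  have hall : ∀ i : ℕ, φ (X ^ i) = 0 := by
    by_cases ha0 : a = 0
    · intro i
      have h1 := hrec i
      rw [ha0] at h1
      have hb0 : b ≠ 0 := by
        rintro rfl
        rw [ha0] at hb
        have h2 : f ∣ h * l ^ 2 := by simpa using hb
        have h4 : f ∣ l ^ 2 := (hh.symm).dvd_of_dvd_mul_left h2
        have h5 : f ∣ l := (hsf.dvd_pow_iff_dvd two_ne_zero).1 h4
        have h6 : l = 0 := by
          by_contra hl0
          have h7 := natDegree_le_of_dvd h5 hl0
          have h8 : l.natDegree < 2 * g + 1 := lam_natDegree g y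
          omega
        exact hy0 (eq_zero_of_lam g y h6 ha0)
      have h2 : b * φ (X ^ i) = 0 := by linear_combination h1
      exact (mul_eq_zero.1 h2).resolve_left hb0
    · intro i
      induction i with
      | zero => rw [pow_zero]; exact hone
      | succ i ih =>
        have h1 := hrec i
        rw [ih, mul_zero] at h1
        exact (mul_eq_zero.1 h1.symm).resolve_left (pow_ne_zero 2 ha0)
  intro j
  have h1 := hall ((j : ℕ) + 1)
  simp only [φ] at h1
  rw [(modByMonic_eq_self_iff hf).2] at h1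
  · rw [Finset.sum_eq_single j] at h1
    · rwa [coeff_X_pow, if_pos rfl, mul_one] at h1
    · intro i _ hi
      rw [coeff_X_pow, if_neg, mul_zero]
      intro e
      exact hi (Fin.ext (by omega))
    · intro h; exact absurd (Finset.mem_univ _) h
  · rw [degree_X_pow, degree_eq_natDegree hf.ne_zero, hd]
    exact_mod_cast (by omega : (j : ℕ) + 1 < 2 * g + 1)

variable {g : ℕ} {f : K[X]} (hf : f.Monic) (hd : f.natDegree = 2 * g + 1)

include hf hd in
lemma comp_es (y : Fin (2 * g + 2) → K) :
    y ∘ es g = wc hf hd (AdjoinRoot.mk f (lam g y)) (y (Fin.last _)) := by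
  have h1 : AdjoinRoot.mk f (lam g y) = ∑ i : Fin (2 * g + 1), y i.castSucc • bs hf hd i := by
    unfold lam
    rw [map_sum]
    refine Finset.sum_congr rfl fun i _ => ?_
    rw [map_mul, map_pow, AdjoinRoot.mk_X, bs_apply, Algebra.smul_def]
    rfl
  funext x
  rcases x with x | x
  · change y (es g (Sum.inl x)) = (bs hf hd).repr (AdjoinRoot.mk f (lam g y)) x
    rw [h1, Module.Basis.repr_sum_self]
    rfl
  · have e : x = 0 := Subsingleton.elim _ _
    subst e
    rfl

include hf hd in
lemma qA_eq (h : K[X]) (y : Fin (2 * g + 2) → K) :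
    y ⬝ᵥ (quadA g f h *ᵥ y) = ((h * lam g y ^ 2) %ₘ f).coeff (2 * g) := by
  rw [← dot_es, quadA_eq hf hd, comp_es hf hd, cA_wc, ← tau_mk hf hd]
  congr 1
  rw [RingHom.map_mul, RingHom.map_pow]
  ring

include hf hd in
lemma qB_eq (h : K[X]) (y : Fin (2 * g + 2) → K) :
    y ⬝ᵥ (quadB g f h *ᵥ y) =
      ((h * X * lam g y ^ 2) %ₘ f).coeff (2 * g) + y (Fin.last _) ^ 2 := by
  rw [← dot_es, quadB_eq hf hd, comp_es hf hd, cB_wc, ← tau_mk hf hd]
  have e : AdjoinRoot.mk f h * AdjoinRoot.mk f (lam g y) *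
      (AdjoinRoot.root f * AdjoinRoot.mk f (lam g y)) =
      AdjoinRoot.mk f (h * X * lam g y ^ 2) := by
    rw [RingHom.map_mul, RingHom.map_pow, RingHom.map_mul, AdjoinRoot.mk_X]
    ring
  rw [e, pow_two (y (Fin.last _))]

include hf hd in
theorem hasSpace_iff (h : K[X]) : HasSpace g f h ↔ HasPl g (quadA g f h) (quadB g f h) := by
  unfold HasSpace HasPl
  simp only [qA_eq hf hd, qB_eq hf hd]

include hf hd in
/-- a point of the curve gives a linear space -/
theorem hasSpace_of_isPoint (hg : 1 ≤ g) (hsf : Squarefree f) {h : K[X]} (hh : IsCoprime h f)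
    {y : Fin (2 * g + 2) → K} (hy : IsPoint g f h y) : HasSpace g f h := by
  obtain ⟨hy0, b, hb⟩ := (isPoint_iff hg hf hd y).1 hy
  rw [hasSpace_iff hf hd]
  refine plane_of_pt hf hd hsf h hh (lam g y) (y (Fin.last _)) b ?_ (lam_natDegree g y) hb
  by_contra hcon
  push Not at hcon
  exact hy0 (eq_zero_of_lam g y hcon.1 hcon.2)

include hf hd in
/-- the point of the curve if `h` is a square -/
theorem isPoint_of_sq (hg : 1 ≤ g) {h : K[X]} (hh : IsCoprime h f) (s : K[X])
    (hs : f ∣ h - s ^ 2) : ∃ y, IsPoint g f h y := by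
  have hf1 : f ≠ 1 := by
    rintro rfl
    simp at hd
  obtain ⟨u, v, huv⟩ := hh
  -- `u` is the inverse of `h`
  obtain ⟨y, hy1, hy2⟩ := lam_surj g ((s * u) %ₘ f) (hd ▸ natDegree_modByMonic_lt _ hf hf1) (0 : K)
  have hdv : f ∣ s * u - lam g y := by
    rw [hy1]
    exact ⟨(s * u) /ₘ f, by linear_combination -(modByMonic_add_div (s * u) f)⟩
  have hmain : f ∣ h * lam g y ^ 2 - (C 1 - C (y (Fin.last _) ^ 2) * X) := by
    obtain ⟨c, hc⟩ := hs
    obtain ⟨d, hd'⟩ := hdv
    rw [hy2]
    have e : h * lam g y ^ 2 - (C 1 - C ((0 : K) ^ 2) * X) = f * (h * (d ^ 2 * f - 2 * d * (s * u))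
        - (h * u ^ 2 * c) - v * (1 + u * h)) := by
      have e1 : lam g y = s * u - f * d := by rw [← hd']; ring
      have e2 : s ^ 2 = h - f * c := by rw [← hc]; ring
      have e3 : u * h = 1 - v * f := by rw [← huv]; ring
      rw [e1]
      simp only [map_one, ne_eq, OfNat.ofNat_ne_zero, not_false_eq_true, zero_pow, map_zero,
        zero_mul, sub_zero]
      linear_combination (h * u ^ 2) * e2 + (u * h + 1) * e3
    exact ⟨_, e⟩
  refine ⟨y, (isPoint_iff hg hf hd y).2 ⟨?_, 1, hmain⟩⟩
  rintro rfl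
  have h0 : lam g (0 : Fin (2 * g + 2) → K) = 0 := by simp [lam]
  rw [h0] at hmain
  have h1 : f ∣ 1 := by simpa using hmain
  exact hf1 (hf.eq_one_of_isUnit (isUnit_of_dvd_one h1))

end cov

end Pool.Agent.H89.TC
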