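import Mathlib

/-! The norm of polynomials over a finite extension `E` of `K`. -/

set_option autoImplicit false

open Polynomial Module

namespace Pool.Agent.H89.TC

section

/-- multiplication matrices as a ring homomorphism -/
noncomputable def lm (K E : Type) [Field K] [Field E] [Algebra K E] [FiniteDimensional K E] :
    E →+* Matrix (Fin (finrank K E)) (Fin (finrank K E)) K :=
  (Algebra.leftMulMatrix (finBasis K E)).toRingHom

/-- the ring homomorphism to matrices over the polynomial ring -/
noncomputable def Phi (K E : Type) [Field K] [Field E] [Algebra K E] [FiniteDimensional K E] :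
    E[X] →+* Matrix (Fin (finrank K E)) (Fin (finrank K E)) K[X] :=
  ((matPolyEquiv (n := Fin (finrank K E)) (R := K)).symm.toRingEquiv.toRingHom).comp
    (mapRingHom (lm K E))

/-- the norm of a polynomial -/
noncomputable def nm (K : Type) {E : Type} [Field K] [Field E] [Algebra K E]
    [FiniteDimensional K E] (p : E[X]) : K[X] := (Phi K E p).det

variable {K E : Type} [Field K] [Field E] [Algebra K E] [FiniteDimensional K E]

theorem Phi_eval (p : E[X]) (t : K) :
    (Phi K E p).map (eval t) = Algebra.leftMulMatrix (finBasis K E) (p.eval (algebraMap K E t)) := by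
  have h1 := matPolyEquiv_symm_map_eval
    (p.map (lm K E)) t
  refine Eq.trans h1 ?_
  have h2 : Matrix.scalar (Fin (finrank K E)) t =
      Algebra.leftMulMatrix (finBasis K E) (algebraMap K E t) := by
    rw [AlgHom.commutes]
    rfl
  rw [h2, eval_map]
  have h3 := Polynomial.hom_eval₂ p (RingHom.id E)
    (lm K E) (algebraMap K E t)
  rw [RingHom.comp_id] at h3
  exact h3.symm

theorem nm_eval (p : E[X]) (t : K) :
    (nm K p).eval t = Algebra.norm K (p.eval (algebraMap K E t)) := by
  unfold nm
  rw [Algebra.norm_eq_matrix_det (finBasis K E), ← Phi_eval, ← Polynomial.coe_evalRingHom,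
    RingHom.map_det]
  rfl

theorem nm_mul (p q : E[X]) : nm K (p * q) = nm K p * nm K q := by
  unfold nm
  rw [map_mul, Matrix.det_mul]

theorem nm_one : nm K (1 : E[X]) = 1 := by
  unfold nm
  rw [map_one, Matrix.det_one]

theorem nm_pow (p : E[X]) (n : ℕ) : nm K (p ^ n) = nm K p ^ n := by
  unfold nm
  rw [map_pow, Matrix.det_pow]

theorem Phi_map (q : K[X]) : Phi K E (q.map (algebraMap K E)) = q • (1 : Matrix _ _ K[X]) := by
  apply (matPolyEquiv (n := Fin (finrank K E)) (R := K)).injective
  rw [matPolyEquiv_smul_one]
  have h1 : matPolyEquiv (Phi K E (q.map (algebraMap K E))) =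
      (q.map (algebraMap K E)).map (lm K E) :=
    AlgEquiv.apply_symm_apply _ _
  rw [h1, Polynomial.map_map]
  congr 1
  ext1 x
  exact (Algebra.leftMulMatrix (finBasis K E)).commutes x

theorem nm_map (q : K[X]) : nm K (q.map (algebraMap K E)) = q ^ finrank K E := by
  unfold nm
  rw [Phi_map, Matrix.det_smul, Matrix.det_one, mul_one, Fintype.card_fin]

/-- the norm modulo a polynomial over `K` -/
theorem nm_congr (f : K[X]) {p q : E[X]} (h : f.map (algebraMap K E) ∣ p - q) :
    f ∣ nm K p - nm K q := by
  obtain ⟨c, hc⟩ := h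
  have h1 : p = f.map (algebraMap K E) * c + q := by rw [← hc]; ring
  rw [← Ideal.mem_span_singleton, ← Ideal.Quotient.eq]
  unfold nm
  rw [RingHom.map_det, RingHom.map_det]
  congr 1
  rw [h1, map_add, map_mul, Phi_map, smul_mul_assoc, one_mul, map_add]
  have h2 : (Ideal.Quotient.mk (Ideal.span {f})).mapMatrix (f • Phi K E c) = 0 := by
    ext i j
    change Ideal.Quotient.mk (Ideal.span {f}) (f * Phi K E c i j) = 0
    rw [map_mul, Ideal.Quotient.eq_zero_iff_mem.2 (Ideal.mem_span_singleton_self f), zero_mul]
  rw [h2, zero_add]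

/-- the value of the minimal polynomial as a norm -/
theorem norm_sub_gen {k L : Type} [Field k] [CommRing L] [Algebra k L] (pb : PowerBasis k L) (t : k) :
    Algebra.norm k (algebraMap k L t - pb.gen) = (minpoly k pb.gen).eval t := by
  rw [← charpoly_leftMulMatrix pb, Matrix.eval_charpoly, Algebra.norm_eq_matrix_det pb.basis,
    map_sub, AlgHom.commutes]
  rfl

end

end Pool.Agent.H89.TC
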