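import Pool.Graph.R_pool_sql_team_seeded_63374d34.N844.PL.Gl

/-! From points of the two-coverings to linear subspaces on the intersections of two quadrics. -/

set_option autoImplicit false
set_option linter.all false

open Matrix Polynomial

namespace Pool.Agent.H89.TC

open Pool.Agent.N844.QR (Sr bs bs_apply tau tau_pow tau_top gA gB cm det_g hom po_eval es)
open Pool.Agent.N844.PL

section pl

variable {k : Type} [Field k] {g : ℕ} {f : k[X]} (hf : f.Monic) (hd : f.natDegree = 2 * g + 1)

/-- the vector with last coordinate `c` -/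
noncomputable def wc (ν : Sr f) (c : k) : Jx g → k :=
  Sum.elim (fun i => (bs hf hd).repr ν i) fun _ => c

lemma wc_eq (ν : Sr f) (c : k) : wc hf hd ν c = vc hf hd ν + c • Sum.elim (fun _ => 0) (fun _ => 1) := by
  funext x
  rcases x with x | x <;> simp [wc, vc]

lemma cA_wc (η ν ν' : Sr f) (c c' : k) : wc hf hd ν c ⬝ᵥ (cA hf hd η *ᵥ wc hf hd ν' c') =
    tau hf hd (η * ν * ν') := by
  rw [← cA_vc]
  simp only [mulVec, dotProduct, Fintype.sum_sum_type, cA, vc, wc, Sum.elim_inl, Sum.elim_inr,
    fromBlocks_apply₁₁, fromBlocks_apply₁₂, fromBlocks_apply₂₁, fromBlocks_apply₂₂,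
    Matrix.zero_apply, zero_mul, mul_zero, Finset.sum_const_zero, add_zero]

lemma cB_wc (η ν ν' : Sr f) (c c' : k) : wc hf hd ν c ⬝ᵥ (cB hf hd η *ᵥ wc hf hd ν' c') =
    tau hf hd (η * ν * (AdjoinRoot.root f * ν')) + c * c' := by
  rw [← cB_vc]
  simp only [mulVec, dotProduct, Fintype.sum_sum_type, cB, vc, wc, Sum.elim_inl, Sum.elim_inr,
    fromBlocks_apply₁₁, fromBlocks_apply₁₂, fromBlocks_apply₂₁, fromBlocks_apply₂₂,
    Matrix.zero_apply, zero_mul, mul_zero, Finset.sum_const_zero, add_zero, zero_add]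
  simp [Matrix.one_apply]

include hf hd in
theorem plane_of_pt (hsf : Squarefree f) (h : k[X]) (hh : IsCoprime h f) (l : k[X]) (a b : k)
    (hne : l ≠ 0 ∨ a ≠ 0) (hl : l.natDegree < 2 * g + 1)
    (hb : f ∣ h * l ^ 2 - (C b - C (a ^ 2) * X)) :
    HasPl g (quadA g f h) (quadB g f h) := by
  have hms : AdjoinRoot.mk f h * AdjoinRoot.mk f l ^ 2 =
      algebraMap k (Sr f) b - algebraMap k (Sr f) (a ^ 2) * AdjoinRoot.root f := by
    rw [← map_pow, ← map_mul, AdjoinRoot.mk_eq_mk.2 hb]
    rw [map_sub, map_mul, AdjoinRoot.mk_X]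
    rfl
  set t : Sr f := AdjoinRoot.mk f l with ht
  let c : Fin g → k := fun i => if (i : ℕ) + 1 = g then a else 0
  let v : Fin g → (Fin (2 * g + 2) → k) := fun i =>
    (LinearEquiv.funCongrLeft k k (es g)).symm (wc hf hd (t * AdjoinRoot.root f ^ (i : ℕ)) (c i))
  have hve : ∀ i, (v i) ∘ es g = wc hf hd (t * AdjoinRoot.root f ^ (i : ℕ)) (c i) := by
    intro i
    exact (LinearEquiv.funCongrLeft k k (es g)).apply_symm_apply _
  have htau : ∀ n : ℕ, tau hf hd (AdjoinRoot.mk f h * t ^ 2 * AdjoinRoot.root f ^ n) =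
      b * tau hf hd (AdjoinRoot.root f ^ n) - a ^ 2 * tau hf hd (AdjoinRoot.root f ^ (n + 1)) := by
    intro n
    rw [hms, sub_mul, map_sub, mul_assoc, ← Algebra.smul_def, ← Algebra.smul_def, map_smul,
      map_smul, smul_eq_mul, smul_eq_mul, ← pow_succ']
  have hA : ∀ i j, v i ⬝ᵥ (quadA g f h *ᵥ v j) = 0 := by
    intro i j
    rw [← dot_es, quadA_eq hf hd, hve, hve, cA_wc]
    have e : AdjoinRoot.mk f h * (t * AdjoinRoot.root f ^ (i : ℕ)) *
        (t * AdjoinRoot.root f ^ (j : ℕ)) = AdjoinRoot.mk f h * t ^ 2 *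
        AdjoinRoot.root f ^ ((i : ℕ) + j) := by ring
    rw [e, htau, tau_pow hf hd (by omega), tau_pow hf hd (by omega)]
    ring
  have hB : ∀ i j, v i ⬝ᵥ (quadB g f h *ᵥ v j) = 0 := by
    intro i j
    rw [← dot_es, quadB_eq hf hd, hve, hve, cB_wc]
    have e : AdjoinRoot.mk f h * (t * AdjoinRoot.root f ^ (i : ℕ)) *
        (AdjoinRoot.root f * (t * AdjoinRoot.root f ^ (j : ℕ))) = AdjoinRoot.mk f h * t ^ 2 *
        AdjoinRoot.root f ^ ((i : ℕ) + j + 1) := by ring
    rw [e, htau, tau_pow hf hd (by omega)]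
    by_cases hij : (i : ℕ) + 1 = g ∧ (j : ℕ) + 1 = g
    · have e2 : (i : ℕ) + j + 1 + 1 = 2 * g := by omega
      rw [e2, tau_top]
      simp only [c, if_pos hij.1, if_pos hij.2]
      ring
    · rw [tau_pow hf hd (by omega)]
      have : c i * c j = 0 := by
        rw [mul_eq_zero]
        by_contra hcon
        push Not at hcon
        apply hij
        constructor
        · by_contra h3
          exact hcon.1 (if_neg h3)
        · by_contra h3
          exact hcon.2 (if_neg h3)
      rw [this]; ring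
  -- nondegeneracy
  have hnd : ∀ p : k[X], p.natDegree < g → AdjoinRoot.mk f (l * p) = 0 → p = 0 := by
    intro p hp h0
    rw [AdjoinRoot.mk_eq_zero] at h0
    have h1 : f ∣ (C b - C (a ^ 2) * X) * p := by
      have h2 : f ∣ (h * l ^ 2 - (C b - C (a ^ 2) * X)) * p := hb.mul_right p
      have h3 : f ∣ h * l * (l * p) := h0.mul_left _
      have h4 := dvd_sub h3 h2
      have e : h * l * (l * p) - (h * l ^ 2 - (C b - C (a ^ 2) * X)) * p =
          (C b - C (a ^ 2) * X) * p := by ring
      rwa [e] at h4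
    have h2 : (C b - C (a ^ 2) * X) * p = 0 := by
      by_contra hne0
      have h3 := natDegree_le_of_dvd h1 hne0
      have h4 : ((C b - C (a ^ 2) * X) * p).natDegree ≤ 1 + p.natDegree := by
        refine natDegree_mul_le.trans (Nat.add_le_add_right ?_ _)
        refine (natDegree_sub_le _ _).trans (max_le (by simp) ?_)
        exact (natDegree_C_mul_le _ _).trans natDegree_X_le
      omega
    rcases mul_eq_zero.1 h2 with h3 | h3
    · exfalso
      rw [h3, sub_zero] at hb
      have h4 : f ∣ l ^ 2 := (hh.symm).dvd_of_dvd_mul_left hb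
      have h5 : f ∣ l := (hsf.dvd_pow_iff_dvd two_ne_zero).1 h4
      have h6 : l = 0 := by
        by_contra hl0
        have := natDegree_le_of_dvd h5 hl0
        omega
      have h7 : a = 0 := by
        have h8 := congrArg (fun q : k[X] => q.coeff 1) h3
        simp only [coeff_sub, coeff_C, coeff_C_mul, coeff_X_one, coeff_zero] at h8
        simp at h8
        exact h8
      rcases hne with h | h
      · exact h h6
      · exact h h7
    · exact h3
  have hli : LinearIndependent k v := by
    rw [Fintype.linearIndependent_iff]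
    intro d hdv
    have h3 : ∑ i, d i • wc hf hd (t * AdjoinRoot.root f ^ (i : ℕ)) (c i) = 0 := by
      have h4 := congrArg (fun y : Fin (2 * g + 2) → k => y ∘ es g) hdv
      funext x
      have h5 := congrFun h4 x
      simp only [Function.comp_apply, Finset.sum_apply, Pi.smul_apply, Pi.zero_apply] at h5 ⊢
      rw [← h5]
      refine Finset.sum_congr rfl fun i _ => ?_
      rw [← hve]
      rfl
    have h5 : ∑ i, d i • (t * AdjoinRoot.root f ^ (i : ℕ)) = 0 := by
      apply (bs hf hd).repr.injective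
      rw [map_zero]
      ext x
      have h6 := congrFun h3 (Sum.inl x)
      simp only [Finset.sum_apply, Pi.smul_apply, wc, Sum.elim_inl, Pi.zero_apply] at h6
      rw [map_sum, Finsupp.finsetSum_apply]
      simp only [map_smul, Finsupp.smul_apply, Finsupp.zero_apply]
      exact h6
    let p : k[X] := ∑ i : Fin g, C (d i) * X ^ (i : ℕ)
    have hp : AdjoinRoot.mk f (l * p) = 0 := by
      rw [← h5, map_mul, map_sum, Finset.mul_sum]
      refine Finset.sum_congr rfl fun i _ => ?_
      rw [map_mul, map_pow, AdjoinRoot.mk_X, Algebra.smul_def]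
      change t * (algebraMap k (Sr f) (d i) * _) = _
      ring
    intro i
    have hg : 0 < g := i.pos
    have hpd : p.natDegree < g := by
      have : p.degree < g := by
        refine (degree_sum_le _ _).trans_lt ?_
        rw [Finset.sup_lt_iff (by exact_mod_cast WithBot.bot_lt_coe g)]
        intro j _
        refine (degree_C_mul_X_pow_le _ _).trans_lt ?_
        exact_mod_cast j.2
      by_cases hp0 : p = 0
      · rw [hp0]; simpa using hg
      · exact (natDegree_lt_iff_degree_lt hp0).2 this
    have hp0 := hnd p hpd hp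
    have h8 := congrArg (fun q : k[X] => q.coeff (i : ℕ)) hp0
    simp only [p, finsetSum_coeff, coeff_C_mul, coeff_X_pow, coeff_zero] at h8
    rw [Finset.sum_eq_single i] at h8
    · simpa using h8
    · intro j _ hj
      rw [if_neg, mul_zero]
      exact fun e => hj (Fin.ext e.symm)
    · intro h; exact absurd (Finset.mem_univ i) h
  refine ⟨Submodule.span k (Set.range v), ?_, fun y hy => ?_⟩
  · rw [finrank_span_eq_card hli, Fintype.card_fin]
  · obtain ⟨c, rfl⟩ := (Submodule.mem_span_range_iff_exists_fun k).1 hy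
    have key : ∀ A : Matrix (Fin (2 * g + 2)) (Fin (2 * g + 2)) k,
        (∀ i j, v i ⬝ᵥ (A *ᵥ v j) = 0) → (∑ i, c i • v i) ⬝ᵥ (A *ᵥ ∑ i, c i • v i) = 0 := by
      intro A hA
      rw [mulVec_sum, dotProduct_sum]
      refine Finset.sum_eq_zero fun j _ => ?_
      rw [sum_dotProduct]
      refine Finset.sum_eq_zero fun i _ => ?_
      rw [mulVec_smul, smul_dotProduct, dotProduct_smul, hA, smul_zero, smul_zero]
    exact ⟨key _ hA, key _ hB⟩

end pl

end Pool.Agent.H89.TC
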